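import Pool.Agent.Y476.ZB.End

/-!
The zero-in-the-spectrum conjecture for the groups that act freely and with finitely many orbits on
the chambers of a regular building of arbitrary type `(W, S)`, `S` finite. The thin building of a
Coxeter system (`Pool.Agent.Y476.ZB.Thin`) gives the subgroups of finite index of Coxeter groups.

`X : FinRes G` is the cellular chain complex of the universal cover of a finite aspherical complex
`M` with fundamental group `G` (`Pool.Agent.H919R4.ZS.Defs`), and `X.homology (toRed G) i` is
`H_i(M; C*_r(G))`. Buildings are defined in `Pool.Agent.Y476.ZB.Bld` by their Weyl distance `δ`.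
-/

set_option autoImplicit false

namespace Pool.Agent.Results.MP_9f173d_gt.BuildingGroups

open Pool.Agent.H919R4.ZS (FinRes toRed)
open Pool.Agent.Y476.ZB (Building)

/-- Let `C` be the non-empty set of chambers of a regular building of type `(W, S)`, where `S` is
finite, and let the group `G` act on `C` freely, with finitely many orbits, and preserving the
Weyl distance. Then the homology of every finite free resolution of `ℤ` over `ℤ[G]` with
coefficients in the reduced group `C*`-algebra `C*_r(G)` does not vanish. -/
theorem result {B W C G : Type} [Finite B] {M : CoxeterMatrix B} [Group W]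
    {cs : CoxeterSystem M W} (b : Building cs C) [Nonempty C] [Group G] [MulAction G C]
    (hfree : ∀ (g : G) (x : C), g • x = x → g = 1)
    (hdist : ∀ (g : G) (x y : C), b.δ (g • x) (g • y) = b.δ x y)
    (hfin : Finite (MulAction.orbitRel.Quotient G C)) (X : FinRes G) :
    ∃ i, Nontrivial (X.homology (toRed G) i) :=
  Pool.Agent.Y476.ZB.building_zero_in_spectrum b hfree hdist hfin X

end Pool.Agent.Results.MP_9f173d_gt.BuildingGroups
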